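import Mathlib

/-!
# MP_147bb8_nt, Q2: `(2n+1) n² C(2n,n)²` divides
`∑_{k<n} (28k²+18k+3) C(2k,k)⁴ C(3k,k) (-64)^(n-1-k)` for `n > 1`

Write `n = m + 1`, `P m j = C(2m+1, j) C(2m+1+j, j)` and `U = ∑_{j ≤ m} C(2j,j) P m j (-4)^(m-j)`.

* WZ identity: `4 S_n = 3 n² C(2n,n)² U`.
* Telescoping: `2 U = n² Cat(n) C(2n-1,n) C(3n-1,n) - 2 (2n+1) (n-1) ∑_{j ≤ m} Cat(j+1) P m j (-4)^(m-j)`
  and `3n C(3n-1,n) = 2 (2n+1) C(3n,n-1)`, so `2n+1` divides `3U`.
* `4` divides `U` for `n ≥ 2`.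
-/

set_option autoImplicit false

open Finset

namespace Pool.Agent.Results.MP_147bb8_nt.Divisibility

/-- `P m j = C(2m+1, j) C(2m+1+j, j)` -/
def P (m j : ℕ) : ℕ := (2 * m + 1).choose j * (2 * m + 1 + j).choose j

/-- `u m j = (-1)^j C(2j,j) P m j / 4^j` -/
noncomputable def u (m j : ℕ) : ℚ := (Nat.centralBinom j : ℚ) * (P m j : ℚ) / (-4) ^ j

lemma P_j (m j : ℕ) (hj : j ≤ 2 * m + 1) : (P m (j + 1) : ℚ) * (j + 1) ^ 2 =
    P m j * (2 * m + 1 - j) * (2 * m + 2 + j) := by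
  have h1 := Nat.choose_succ_right_eq (2 * m + 1) j
  have h2 := Nat.add_one_mul_choose_eq (2 * m + 1 + j) j
  have h1' : ((2 * m + 1).choose (j + 1) : ℚ) * (j + 1) = (2 * m + 1).choose j * (2 * m + 1 - j) := by
    have : (((2 * m + 1 - j : ℕ)) : ℚ) = 2 * m + 1 - j := by
      rw [Nat.cast_sub hj]; push_cast; ring
    rw [← this]
    exact_mod_cast h1
  have h2' : (2 * (m : ℚ) + 1 + j + 1) * ((2 * m + 1 + j).choose j : ℚ) =
      ((2 * m + 1 + j + 1).choose (j + 1) : ℚ) * (j + 1) := by exact_mod_cast h2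
  unfold P
  have e : 2 * m + 1 + (j + 1) = 2 * m + 1 + j + 1 := by ring
  rw [e]
  push_cast
  calc ((2 * m + 1).choose (j + 1) : ℚ) * ((2 * m + 1 + j + 1).choose (j + 1) : ℚ) * ((j : ℚ) + 1) ^ 2
      = (((2 * m + 1).choose (j + 1) : ℚ) * (j + 1)) * (((2 * m + 1 + j + 1).choose (j + 1) : ℚ) * (j + 1)) := by ring
    _ = _ := by rw [h1', ← h2']; ring

lemma P_m (m j : ℕ) (hj : j ≤ 2 * m + 1) :
    (P (m + 1) j : ℚ) * ((2 * m + 2 - j) * (2 * m + 3 - j)) =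
    P m j * ((2 * m + 2 + j) * (2 * m + 3 + j)) := by
  have h1 := Nat.choose_mul_succ_eq (2 * m + 1) j
  have h2 := Nat.choose_mul_succ_eq (2 * m + 2) j
  have h3 := Nat.choose_mul_succ_eq (2 * m + 1 + j) j
  have h4 := Nat.choose_mul_succ_eq (2 * m + 2 + j) j
  have c1 : (((2 * m + 1 + 1 - j : ℕ)) : ℚ) = 2 * m + 2 - j := by
    rw [Nat.cast_sub (by omega)]; push_cast; ring
  have c2 : (((2 * m + 2 + 1 - j : ℕ)) : ℚ) = 2 * m + 3 - j := by
    rw [Nat.cast_sub (by omega)]; push_cast; ring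
  have c3 : (2 * m + 1 + j + 1 - j : ℕ) = 2 * m + 2 := by omega
  have c4 : (2 * m + 2 + j + 1 - j : ℕ) = 2 * m + 3 := by omega
  rw [c3] at h3
  rw [c4] at h4
  have h1' : ((2 * m + 1).choose j : ℚ) * (2 * m + 2) = (2 * m + 2).choose j * (2 * m + 2 - j) := by
    rw [← c1]
    have : (2 * (m : ℚ) + 2) = ((2 * m + 1 + 1 : ℕ) : ℚ) := by push_cast; ring
    rw [this]
    exact_mod_cast h1
  have h2' : ((2 * m + 2).choose j : ℚ) * (2 * m + 3) = (2 * m + 3).choose j * (2 * m + 3 - j) := by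
    rw [← c2]
    have : (2 * (m : ℚ) + 3) = ((2 * m + 2 + 1 : ℕ) : ℚ) := by push_cast; ring
    rw [this]
    exact_mod_cast h2
  have h3' : ((2 * m + 1 + j).choose j : ℚ) * (2 * m + 2 + j) = (2 * m + 2 + j).choose j * (2 * m + 2) := by
    have e : 2 * m + 1 + j + 1 = 2 * m + 2 + j := by ring
    rw [e] at h3
    have : (2 * (m : ℚ) + 2 + j) = ((2 * m + 2 + j : ℕ) : ℚ) := by push_cast; ring
    rw [this]
    exact_mod_cast h3
  have h4' : ((2 * m + 2 + j).choose j : ℚ) * (2 * m + 3 + j) = (2 * m + 3 + j).choose j * (2 * m + 3) := by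
    have e : 2 * m + 2 + j + 1 = 2 * m + 3 + j := by ring
    rw [e] at h4
    have : (2 * (m : ℚ) + 3 + j) = ((2 * m + 3 + j : ℕ) : ℚ) := by push_cast; ring
    rw [this]
    exact_mod_cast h4
  unfold P
  have e : 2 * (m + 1) + 1 = 2 * m + 3 := by ring
  rw [e]
  push_cast
  have q1 : (2 * (m : ℚ) + 2) ≠ 0 := by positivity
  have q2 : (2 * (m : ℚ) + 3) ≠ 0 := by positivity
  have key : (2 * (m : ℚ) + 2) * (2 * m + 3) *
      (((2 * m + 3).choose j : ℚ) * ((2 * m + 3 + j).choose j : ℚ) * ((2 * m + 2 - j) * (2 * m + 3 - j))) =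
      (2 * (m : ℚ) + 2) * (2 * m + 3) *
      (((2 * m + 1).choose j : ℚ) * ((2 * m + 1 + j).choose j : ℚ) * ((2 * m + 2 + j) * (2 * m + 3 + j))) := by
    calc (2 * (m : ℚ) + 2) * (2 * m + 3) *
      (((2 * m + 3).choose j : ℚ) * ((2 * m + 3 + j).choose j : ℚ) * ((2 * m + 2 - j) * (2 * m + 3 - j)))
        = (((2 * m + 3).choose j : ℚ) * (2 * m + 3 - j)) * (((2 * m + 3 + j).choose j : ℚ) * (2 * m + 3)) *
          ((2 * m + 2) * (2 * m + 2 - j)) := by ring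
      _ = (((2 * m + 2).choose j : ℚ) * (2 * m + 3)) * (((2 * m + 2 + j).choose j : ℚ) * (2 * m + 3 + j)) *
          ((2 * m + 2) * (2 * m + 2 - j)) := by rw [← h2', ← h4']
      _ = (((2 * m + 2).choose j : ℚ) * (2 * m + 2 - j)) * (((2 * m + 2 + j).choose j : ℚ) * (2 * m + 2)) *
          ((2 * m + 3) * (2 * m + 3 + j)) := by ring
      _ = _ := by rw [← h1', ← h3']; ring
  exact mul_left_cancel₀ (mul_ne_zero q1 q2) key

lemma cb_succ (j : ℕ) : ((j : ℚ) + 1) * (Nat.centralBinom (j + 1) : ℚ)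
    = 2 * (2 * j + 1) * (Nat.centralBinom j : ℚ) := by
  have h := Nat.succ_mul_centralBinom_succ j
  exact_mod_cast h

lemma u_j (m j : ℕ) (hj : j ≤ 2 * m + 1) : u m (j + 1) * (2 * (j + 1) ^ 3) =
    - ((2 * j + 1) * (2 * m + 1 - j) * (2 * m + 2 + j)) * u m j := by
  unfold u
  have h1 := P_j m j hj
  have h2 := cb_succ j
  rw [pow_succ]
  have h4 : ((-4 : ℚ)) ^ j ≠ 0 := pow_ne_zero _ (by norm_num)
  rw [div_mul_eq_mul_div, mul_div_assoc', div_eq_div_iff (mul_ne_zero h4 (by norm_num)) h4]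
  calc (Nat.centralBinom (j + 1) : ℚ) * (P m (j + 1) : ℚ) * (2 * ((j : ℚ) + 1) ^ 3) * (-4) ^ j
      = 2 * (((j : ℚ) + 1) * (Nat.centralBinom (j + 1) : ℚ)) * ((P m (j + 1) : ℚ) * (j + 1) ^ 2) * (-4) ^ j := by ring
    _ = _ := by rw [h1, h2]; ring

lemma u_m (m j : ℕ) (hj : j ≤ 2 * m + 1) : u (m + 1) j * ((2 * m + 2 - j) * (2 * m + 3 - j)) =
    ((2 * m + 2 + j) * (2 * m + 3 + j)) * u m j := by
  unfold u
  have h1 := P_m m j hj
  have h4 : ((-4 : ℚ)) ^ j ≠ 0 := pow_ne_zero _ (by norm_num)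
  rw [div_mul_eq_mul_div, mul_div_assoc', div_eq_div_iff h4 h4]
  calc (Nat.centralBinom j : ℚ) * (P (m + 1) j : ℚ) * ((2 * (m : ℚ) + 2 - j) * (2 * m + 3 - j)) * (-4) ^ j
      = (Nat.centralBinom j : ℚ) * ((P (m + 1) j : ℚ) * ((2 * (m : ℚ) + 2 - j) * (2 * m + 3 - j))) * (-4) ^ j := by ring
    _ = _ := by rw [h1]; ring

/-- `K m = 12 (m+1)² C(2m+2,m+1)²/16^(m+1)` -/
noncomputable def K (m : ℕ) : ℚ := 12 * (m + 1) ^ 2 * (Nat.centralBinom (m + 1) : ℚ) ^ 2 / 16 ^ (m + 1)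

lemma K_succ (m : ℕ) : K (m + 1) * (4 * (m + 1) ^ 2) = (2 * m + 3) ^ 2 * K m := by
  unfold K
  have h := cb_succ (m + 1)
  rw [pow_succ (16 : ℚ) (m + 1)]
  push_cast at h ⊢
  generalize (Nat.centralBinom (m + 1 + 1) : ℚ) = X at *
  generalize (Nat.centralBinom (m + 1) : ℚ) = Y at *
  rw [div_mul_eq_mul_div, mul_div_assoc', div_eq_div_iff (by positivity) (by positivity)]
  have h2 : ((m : ℚ) + 1 + 1) ^ 2 * X ^ 2 = (2 * (2 * (m + 1) + 1) * Y) ^ 2 := by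
    rw [← h]; ring
  calc 12 * ((m : ℚ) + 1 + 1) ^ 2 * X ^ 2 * (4 * (m + 1) ^ 2) * 16 ^ (m + 1)
      = 12 * (((m : ℚ) + 1 + 1) ^ 2 * X ^ 2) * (4 * (m + 1) ^ 2) * 16 ^ (m + 1) := by ring
    _ = _ := by rw [h2]; ring

/-- the WZ certificate -/
noncomputable def R (m j : ℕ) : ℚ :=
  - ((4 * m + 5) * (j : ℚ) ^ 3) / (2 * (m + 1) ^ 2 * ((2 * m + 2 - j) * (2 * m + 3 - j)))

lemma wz_step (m j : ℕ) (hj : j ≤ m) : K (m + 1) * u (m + 1) j - K m * u m j =
    R m (j + 1) * (K m * u m (j + 1)) - R m j * (K m * u m j) := by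
  have h1 := u_j m j (by omega)
  have h2 := u_m m j (by omega)
  have h3 := K_succ m
  have hjm : (j : ℚ) ≤ m := by exact_mod_cast hj
  have q1 : (m : ℚ) + 1 ≠ 0 := by positivity
  have q3 : (j : ℚ) + 1 ≠ 0 := by positivity
  have hm0 : (0 : ℚ) ≤ m := by positivity
  have q4 : (2 * (m : ℚ) + 2 - j) ≠ 0 := by intro h; linarith
  have q5 : (2 * (m : ℚ) + 3 - j) ≠ 0 := by intro h; linarith
  have q6 : (2 * (m : ℚ) + 2 - (j + 1)) ≠ 0 := by intro h; linarith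
  have q7 : (2 * (m : ℚ) + 3 - (j + 1)) ≠ 0 := by intro h; linarith
  have e1 : u m (j + 1) = - ((2 * j + 1) * (2 * m + 1 - j) * (2 * m + 2 + j)) * u m j / (2 * (j + 1) ^ 3) := by
    rw [eq_div_iff (by positivity)]; exact h1
  have e2 : u (m + 1) j = ((2 * m + 2 + j) * (2 * m + 3 + j)) * u m j / ((2 * m + 2 - j) * (2 * m + 3 - j)) := by
    rw [eq_div_iff (mul_ne_zero q4 q5)]; exact h2
  have e3 : K (m + 1) = (2 * m + 3) ^ 2 * K m / (4 * (m + 1) ^ 2) := by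
    rw [eq_div_iff (by positivity)]; exact h3
  have q8 : (2 * (m : ℚ) + 1 - j) ≠ 0 := by intro h; linarith
  have key : (2 * (m : ℚ) + 3) ^ 2 * (2 * m + 2 + j) * (2 * m + 3 + j) -
      4 * (m + 1) ^ 2 * ((2 * m + 2 - j) * (2 * m + 3 - j)) =
      (4 * m + 5) * (2 * j + 1) * (2 * m + 2 + j) * (2 * m + 3 - j) + 2 * (4 * m + 5) * (j : ℚ) ^ 3 := by ring
  have f1 : R m (j + 1) * (K m * u m (j + 1)) =
      (4 * m + 5) * (2 * j + 1) * (2 * m + 2 + j) / (4 * (m + 1) ^ 2 * (2 * m + 2 - j)) * (K m * u m j) := by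
    unfold R
    rw [e1]
    push_cast
    have r6 : (2 * (m : ℚ) + 2 - (j + 1)) = 2 * m + 1 - j := by ring
    have r7 : (2 * (m : ℚ) + 3 - (j + 1)) = 2 * m + 2 - j := by ring
    rw [r6, r7]
    generalize 2 * (m : ℚ) + 1 - j = c at *
    generalize 2 * (m : ℚ) + 2 - j = a at *
    field_simp
    ring
  rw [f1, e2, e3]
  unfold R
  generalize 2 * (m : ℚ) + 2 - j = a at *
  generalize 2 * (m : ℚ) + 3 - j = b at *
  field_simp
  linear_combination (2 * K m * u m j) * key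

lemma wz_sum (m J : ℕ) (hJ : J ≤ m + 1) : ∑ j ∈ range J, (K (m + 1) * u (m + 1) j - K m * u m j) =
    R m J * (K m * u m J) := by
  induction J with
  | zero => simp [R]
  | succ J ih =>
    rw [sum_range_succ, ih (by omega), wz_step m J (by omega)]
    ring

/-- the summand without the quadratic factor -/
noncomputable def tt (k : ℕ) : ℚ := ((2 * k).choose k : ℚ) ^ 4 * ((3 * k).choose k : ℚ) / (-64) ^ k

lemma choose_a (m : ℕ) : 2 * (2 * m + 1).choose (m + 1) = Nat.centralBinom (m + 1) := by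
  have h := Nat.choose_mul_succ_eq (2 * m + 1) (m + 1)
  have e : 2 * m + 1 + 1 - (m + 1) = m + 1 := by omega
  rw [e] at h
  have h2 : (2 * m + 1).choose (m + 1) * (2 * m + 1 + 1) = (2 * m + 1).choose (m + 1) * 2 * (m + 1) := by ring
  rw [h2] at h
  have h3 := Nat.eq_of_mul_eq_mul_right (by omega : 0 < m + 1) h
  rw [Nat.centralBinom_eq_two_mul_choose]
  have e2 : 2 * (m + 1) = 2 * m + 1 + 1 := by ring
  rw [e2, ← h3]
  ring

lemma choose_b (m : ℕ) : 3 * (3 * m + 2).choose (m + 1) = 2 * (3 * (m + 1)).choose (m + 1) := by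
  have h := Nat.choose_mul_succ_eq (3 * m + 2) (m + 1)
  have e : 3 * m + 2 + 1 - (m + 1) = 2 * (m + 1) := by omega
  rw [e] at h
  have e2 : 3 * (m + 1) = 3 * m + 2 + 1 := by ring
  rw [e2]
  have h2 : (m + 1) * (3 * (3 * m + 2).choose (m + 1)) = (m + 1) * (2 * (3 * m + 2 + 1).choose (m + 1)) := by
    calc (m + 1) * (3 * (3 * m + 2).choose (m + 1)) = (3 * m + 2).choose (m + 1) * (3 * m + 2 + 1) := by ring
      _ = _ := by rw [h]; ring
  exact Nat.eq_of_mul_eq_mul_left (by omega) h2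

lemma diag (m : ℕ) : K m * u m (m + 1) = 4 * (m + 1) ^ 2 * tt (m + 1) := by
  unfold K u tt P
  have ha := choose_a m
  have hb := choose_b m
  have e1 : 2 * m + 1 + (m + 1) = 3 * m + 2 := by ring
  rw [e1]
  have ha' : ((2 * m + 1).choose (m + 1) : ℚ) = (Nat.centralBinom (m + 1) : ℚ) / 2 := by
    rw [← ha]; push_cast; ring
  have hb' : ((3 * m + 2).choose (m + 1) : ℚ) = 2 * ((3 * (m + 1)).choose (m + 1) : ℚ) / 3 := by
    have : (3 : ℚ) * ((3 * m + 2).choose (m + 1) : ℚ) = 2 * ((3 * (m + 1)).choose (m + 1) : ℚ) := by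
      exact_mod_cast hb
    rw [← this]; ring
  rw [← Nat.centralBinom_eq_two_mul_choose]
  push_cast
  rw [ha', hb']
  have e4 : (-64 : ℚ) ^ (m + 1) = 16 ^ (m + 1) * (-4) ^ (m + 1) := by rw [← mul_pow]; norm_num
  rw [e4]
  have h4 : ((-4 : ℚ)) ^ (m + 1) ≠ 0 := pow_ne_zero _ (by norm_num)
  field_simp
  ring

theorem wz (m : ℕ) : ∑ k ∈ range (m + 1), (28 * (k : ℚ) ^ 2 + 18 * k + 3) * tt k =
    K m * ∑ j ∈ range (m + 1), u m j := by
  induction m with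
  | zero => simp [K, u, P, tt, Nat.centralBinom]; norm_num
  | succ m ih =>
    rw [sum_range_succ, ih]
    have h := wz_sum m (m + 1) le_rfl
    rw [sum_sub_distrib, ← mul_sum, ← mul_sum] at h
    rw [sum_range_succ _ (m + 1)]
    have hd := diag m
    have h2 := u_m m (m + 1) (by omega)
    have h3 := K_succ m
    have q1 : (m : ℚ) + 1 ≠ 0 := by positivity
    have q2 : (m : ℚ) + 2 ≠ 0 := by positivity
    push_cast at h2
    have r1 : (2 * (m : ℚ) + 2 - (m + 1)) = m + 1 := by ring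
    have r2 : (2 * (m : ℚ) + 3 - (m + 1)) = m + 2 := by ring
    rw [r1, r2] at h2
    have e2 : u (m + 1) (m + 1) = ((2 * m + 2 + (m + 1)) * (2 * m + 3 + (m + 1))) * u m (m + 1) /
        ((m + 1) * (m + 2)) := by
      rw [eq_div_iff (mul_ne_zero q1 q2)]; exact h2
    have e3 : K (m + 1) = (2 * m + 3) ^ 2 * K m / (4 * (m + 1) ^ 2) := by
      rw [eq_div_iff (by positivity)]; exact h3
    have e6 : K (m + 1) * u (m + 1) (m + 1) = 3 * (2 * m + 3) ^ 2 * (3 * m + 4) / (m + 2) * tt (m + 1) := by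
      calc K (m + 1) * u (m + 1) (m + 1)
          = (2 * m + 3) ^ 2 * (3 * (3 * m + 4)) / (4 * (m + 1) ^ 2 * (m + 2)) * (K m * u m (m + 1)) := by
            rw [e2, e3]; field_simp; ring
        _ = _ := by rw [hd]; field_simp
    have e7 : R m (m + 1) * (K m * u m (m + 1)) = - (2 * (4 * m + 5) * (m + 1) ^ 2 / (m + 2)) * tt (m + 1) := by
      rw [hd]
      unfold R
      push_cast
      rw [r1, r2]
      field_simp
      ring
    rw [e7] at h
    have hfin : (28 * ((m : ℚ) + 1) ^ 2 + 18 * (m + 1) + 3) * tt (m + 1) =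
        3 * (2 * m + 3) ^ 2 * (3 * m + 4) / (m + 2) * tt (m + 1) +
          (- (2 * (4 * m + 5) * (m + 1) ^ 2 / (m + 2)) * tt (m + 1)) := by
      field_simp
      ring
    push_cast
    rw [hfin]
    linear_combination (-1) * h - e6

/-- the sum of the problem -/
def S (n : ℕ) : ℤ :=
  ∑ k ∈ range n, (28 * (k : ℤ) ^ 2 + 18 * k + 3) * ((2 * k).choose k : ℤ) ^ 4 *
    ((3 * k).choose k : ℤ) * (-64) ^ (n - 1 - k)

/-- `U m = ∑_{j ≤ m} C(2j,j) P m j (-4)^(m-j)` -/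
def U (m : ℕ) : ℤ := ∑ j ∈ range (m + 1), (Nat.centralBinom j : ℤ) * (P m j : ℤ) * (-4) ^ (m - j)

/-- `V m = ∑_{j ≤ m} Cat(j+1) P m j (-4)^(m-j)` -/
def V (m : ℕ) : ℤ := ∑ j ∈ range (m + 1), (catalan (j + 1) : ℤ) * (P m j : ℤ) * (-4) ^ (m - j)

lemma pow_split (m j : ℕ) (hj : j ≤ m) : (-4 : ℚ) ^ (m - j) = (-4) ^ m / (-4) ^ j := by
  have h4 : ((-4 : ℚ)) ^ j ≠ 0 := pow_ne_zero _ (by norm_num)
  rw [eq_div_iff h4, ← pow_add]
  congr 1
  omega

lemma U_cast (m : ℕ) : (U m : ℚ) = (-4) ^ m * ∑ j ∈ range (m + 1), u m j := by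
  unfold U
  push_cast
  rw [mul_sum]
  apply sum_congr rfl
  intro j hj
  rw [pow_split m j (by have := mem_range.mp hj; omega)]
  unfold u
  ring

lemma cat_cast (j : ℕ) : (catalan (j + 1) : ℚ) * ((j + 1) * (j + 2)) =
    2 * (2 * j + 1) * (Nat.centralBinom j : ℚ) := by
  have h := succ_mul_catalan_eq_centralBinom (j + 1)
  have h' : ((j : ℚ) + 2) * (catalan (j + 1) : ℚ) = (Nat.centralBinom (j + 1) : ℚ) := by
    have : ((j : ℚ) + 2) = ((j + 1 + 1 : ℕ) : ℚ) := by push_cast; ring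
    rw [this]
    exact_mod_cast h
  rw [← cb_succ j, ← h']
  ring

lemma V_cast (m : ℕ) : (V m : ℚ) = (-4) ^ m *
    ∑ j ∈ range (m + 1), 2 * (2 * j + 1) / ((j + 1) * (j + 2)) * u m j := by
  unfold V
  push_cast
  rw [mul_sum]
  apply sum_congr rfl
  intro j hj
  rw [pow_split m j (by have := mem_range.mp hj; omega)]
  have h := cat_cast j
  have h' : (catalan (j + 1) : ℚ) = 2 * (2 * j + 1) * (Nat.centralBinom j : ℚ) / ((j + 1) * (j + 2)) := by
    rw [eq_div_iff (by positivity)]; exact h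
  rw [h']
  unfold u
  ring

lemma S_eq (m : ℕ) : 4 * S (m + 1) = 3 * (m + 1) ^ 2 * (Nat.centralBinom (m + 1) : ℤ) ^ 2 * U m := by
  have h := wz m
  have h1 : (S (m + 1) : ℚ) = (-64) ^ m *
      ∑ k ∈ range (m + 1), (28 * (k : ℚ) ^ 2 + 18 * k + 3) * tt k := by
    unfold S
    push_cast
    rw [mul_sum]
    apply sum_congr rfl
    intro k hk
    have hk' : k ≤ m := by have := mem_range.mp hk; omega
    have h64 : ((-64 : ℚ)) ^ k ≠ 0 := pow_ne_zero _ (by norm_num)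
    have e : (-64 : ℚ) ^ (m - k) = (-64) ^ m / (-64) ^ k := by
      rw [eq_div_iff h64, ← pow_add]; congr 1; omega
    rw [e]
    unfold tt
    ring
  have h2 : (4 : ℚ) * (S (m + 1) : ℚ) =
      3 * (m + 1) ^ 2 * (Nat.centralBinom (m + 1) : ℚ) ^ 2 * (U m : ℚ) := by
    rw [h1, h, U_cast]
    unfold K
    have e : (-64 : ℚ) ^ m = 16 ^ m * (-4) ^ m := by rw [← mul_pow]; norm_num
    rw [e, pow_succ]
    field_simp
    ring
  exact_mod_cast h2

lemma telescope (m J : ℕ) (hJ : J ≤ m + 1) :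
    ∑ j ∈ range J, (u m j + (2 * m + 3) * m * (2 * (2 * j + 1) / ((j + 1) * (j + 2)) * u m j))
    = - (2 * (J : ℚ) ^ 2 / (J + 1)) * u m J := by
  induction J with
  | zero => simp
  | succ J ih =>
    rw [sum_range_succ, ih (by omega)]
    have h := u_j m J (by omega)
    have e1 : u m (J + 1) = - ((2 * J + 1) * (2 * m + 1 - J) * (2 * m + 2 + J)) * u m J / (2 * (J + 1) ^ 3) := by
      rw [eq_div_iff (by positivity)]; exact h
    rw [e1]
    push_cast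
    have q3 : (J : ℚ) + 1 ≠ 0 := by positivity
    have q4 : (J : ℚ) + 2 ≠ 0 := by positivity
    have q5 : (J : ℚ) + 1 + 1 ≠ 0 := by positivity
    field_simp
    ring

lemma U_eq (m : ℕ) : 2 * U m + 2 * (2 * m + 3) * m * V m =
    (m + 1) ^ 2 * (catalan (m + 1) : ℤ) * (P m (m + 1) : ℤ) := by
  have h := telescope m (m + 1) le_rfl
  rw [sum_add_distrib, ← mul_sum] at h
  have hc := succ_mul_catalan_eq_centralBinom (m + 1)
  have hc' : ((m : ℚ) + 2) * (catalan (m + 1) : ℚ) = (Nat.centralBinom (m + 1) : ℚ) := by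
    have : ((m : ℚ) + 2) = ((m + 1 + 1 : ℕ) : ℚ) := by push_cast; ring
    rw [this]
    exact_mod_cast hc
  have hq : 2 * (U m : ℚ) + 2 * (2 * m + 3) * m * (V m : ℚ) =
      (m + 1) ^ 2 * (catalan (m + 1) : ℚ) * (P m (m + 1) : ℚ) := by
    rw [U_cast, V_cast]
    have e : u m (m + 1) = (Nat.centralBinom (m + 1) : ℚ) * (P m (m + 1) : ℚ) / ((-4) ^ m * (-4)) := by
      unfold u
      rw [pow_succ]
    rw [e, ← hc'] at h
    push_cast at h
    have h4 : ((-4 : ℚ)) ^ m ≠ 0 := pow_ne_zero _ (by norm_num)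
    have q2 : (m : ℚ) + 2 ≠ 0 := by positivity
    have e2 : - (2 * ((m : ℚ) + 1) ^ 2 / (m + 1 + 1)) *
        ((m + 2) * (catalan (m + 1) : ℚ) * (P m (m + 1) : ℚ) / ((-4) ^ m * (-4))) =
        (m + 1) ^ 2 * (catalan (m + 1) : ℚ) * (P m (m + 1) : ℚ) / (2 * (-4) ^ m) := by
      have q5 : (m : ℚ) + 1 + 1 = m + 2 := by ring
      rw [q5]
      field_simp
      ring
    rw [e2] at h
    have h5 : 2 * (-4 : ℚ) ^ m * (∑ j ∈ range (m + 1), u m j +
        (2 * m + 3) * m * ∑ j ∈ range (m + 1), (2 * (2 * (j : ℚ) + 1) / ((j + 1) * (j + 2)) * u m j)) =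
        (m + 1) ^ 2 * (catalan (m + 1) : ℚ) * (P m (m + 1) : ℚ) := by
      rw [h]
      field_simp
    rw [← h5]
    ring
  exact_mod_cast hq

lemma three_choose (m : ℕ) : 3 * (m + 1) * (3 * m + 2).choose (m + 1) =
    2 * (2 * m + 3) * (3 * m + 3).choose m := by
  have h1 := choose_b m
  have h2 := Nat.choose_succ_right_eq (3 * m + 3) m
  have e2 : 3 * m + 3 - m = 2 * m + 3 := by omega
  rw [e2] at h2
  have e3 : 3 * (m + 1) = 3 * m + 3 := by ring
  rw [e3] at h1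
  calc 3 * (m + 1) * (3 * m + 2).choose (m + 1)
      = (m + 1) * (3 * (3 * m + 2).choose (m + 1)) := by ring
    _ = 2 * ((3 * m + 3).choose (m + 1) * (m + 1)) := by rw [h1]; ring
    _ = _ := by rw [h2]; ring

lemma dvd_three_U (m : ℕ) : ((2 * m + 3 : ℕ) : ℤ) ∣ 3 * U m := by
  have h := U_eq m
  have h3 : 3 * (((m : ℤ) + 1) ^ 2 * (catalan (m + 1) : ℤ) * (P m (m + 1) : ℤ)) =
      ((2 * m + 3 : ℕ) : ℤ) * (2 * (m + 1) * (catalan (m + 1) : ℤ) * ((2 * m + 1).choose (m + 1) : ℤ) *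
        ((3 * m + 3).choose m : ℤ)) := by
    unfold P
    have e : 2 * m + 1 + (m + 1) = 3 * m + 2 := by ring
    rw [e]
    have h5 := three_choose m
    have h5' : 3 * ((m : ℤ) + 1) * ((3 * m + 2).choose (m + 1) : ℤ) =
      2 * (2 * m + 3) * ((3 * m + 3).choose m : ℤ) := by exact_mod_cast h5
    push_cast
    calc 3 * (((m : ℤ) + 1) ^ 2 * (catalan (m + 1) : ℤ) *
          (((2 * m + 1).choose (m + 1) : ℤ) * ((3 * m + 2).choose (m + 1) : ℤ)))
        = (m + 1) * (catalan (m + 1) : ℤ) * ((2 * m + 1).choose (m + 1) : ℤ) *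
          (3 * ((m : ℤ) + 1) * ((3 * m + 2).choose (m + 1) : ℤ)) := by ring
      _ = _ := by rw [h5']; ring
  have h4 : ((2 * m + 3 : ℕ) : ℤ) ∣ 2 * (3 * U m) := by
    have e : 2 * (3 * U m) = ((2 * m + 3 : ℕ) : ℤ) * (2 * (m + 1) * (catalan (m + 1) : ℤ) *
        ((2 * m + 1).choose (m + 1) : ℤ) * ((3 * m + 3).choose m : ℤ) - 6 * m * V m) := by
      rw [mul_sub, ← h3, ← h]
      push_cast
      ring
    rw [e]
    exact Dvd.intro _ rfl
  have hcop : IsCoprime ((2 * m + 3 : ℕ) : ℤ) 2 := by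
    refine ⟨1, -(m + 1), ?_⟩
    push_cast
    ring
  exact hcop.dvd_of_dvd_mul_left h4

lemma four_dvd_cb (k : ℕ) (hk : 2 ≤ k) (hodd : ¬ 2 ∣ k) : 4 ∣ Nat.centralBinom k := by
  obtain ⟨l, rfl⟩ : ∃ l, k = l + 1 := ⟨k - 1, by omega⟩
  have h := Nat.succ_mul_centralBinom_succ l
  obtain ⟨c, hc⟩ := Nat.two_dvd_centralBinom_of_one_le (n := l) (by omega)
  rw [hc] at h
  have h4 : 4 ∣ (l + 1) * Nat.centralBinom (l + 1) := by
    rw [h]
    exact ⟨(2 * l + 1) * c, by ring⟩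
  have hcop : Nat.Coprime 4 (l + 1) := by
    have h2 : Nat.Coprime 2 (l + 1) := (Nat.prime_two.coprime_iff_not_dvd).mpr hodd
    have : (4 : ℕ) = 2 ^ 2 := by norm_num
    rw [this]
    exact Nat.Coprime.pow_left 2 h2
  exact hcop.dvd_of_dvd_mul_left h4

lemma four_dvd_last (m : ℕ) (hm : 1 ≤ m) : 4 ∣ Nat.centralBinom m * P m m := by
  rcases Nat.lt_or_ge m 2 with h | h
  · have : m = 1 := by omega
    subst this
    decide
  · have ha := choose_a m
    have hs : (2 * m + 1).choose m = (2 * m + 1).choose (m + 1) := by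
      apply Nat.choose_symm_of_eq_add
      ring
    have h8 : 8 ∣ Nat.centralBinom m * Nat.centralBinom (m + 1) := by
      by_cases hodd : 2 ∣ m
      · have h1 : 4 ∣ Nat.centralBinom (m + 1) := four_dvd_cb (m + 1) (by omega) (by omega)
        have h2 : 2 ∣ Nat.centralBinom m := Nat.two_dvd_centralBinom_of_one_le (by omega)
        have := Nat.mul_dvd_mul h2 h1
        simpa using this
      · have h1 : 4 ∣ Nat.centralBinom m := four_dvd_cb m h hodd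
        have h2 : 2 ∣ Nat.centralBinom (m + 1) := Nat.two_dvd_centralBinom_of_one_le (by omega)
        have := Nat.mul_dvd_mul h1 h2
        simpa using this
    have h9 : 4 ∣ Nat.centralBinom m * (2 * m + 1).choose m := by
      rw [hs]
      rw [← ha] at h8
      have : Nat.centralBinom m * (2 * (2 * m + 1).choose (m + 1)) =
          2 * (Nat.centralBinom m * (2 * m + 1).choose (m + 1)) := by ring
      rw [this] at h8
      omega
    unfold P
    rw [← mul_assoc]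
    exact h9.mul_right _

lemma four_dvd_U (m : ℕ) (hm : 1 ≤ m) : (4 : ℤ) ∣ U m := by
  unfold U
  apply dvd_sum
  intro j hj
  have hj' : j ≤ m := by have := mem_range.mp hj; omega
  rcases Nat.lt_or_ge j m with h | h
  · apply Dvd.dvd.mul_left
    have e : m - j = (m - j - 1) + 1 := by omega
    rw [e, pow_succ]
    exact ⟨-((-4) ^ (m - j - 1)), by ring⟩
  · have : j = m := le_antisymm hj' h
    subst this
    apply Dvd.dvd.mul_right
    have := four_dvd_last j hm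
    exact_mod_cast this

/-- **Full answer to Q2**: for every `n > 1` the integer
`∑_{k<n} (28k²+18k+3) C(2k,k)⁴ C(3k,k) (-64)^(n-1-k)` is divisible by `(2n+1) n² C(2n,n)²`. -/
theorem result (n : ℕ) (hn : 1 < n) :
    (2 * (n : ℤ) + 1) * (n : ℤ) ^ 2 * ((2 * n).choose n : ℤ) ^ 2 ∣
      ∑ k ∈ range n, (28 * (k : ℤ) ^ 2 + 18 * k + 3) * ((2 * k).choose k : ℤ) ^ 4 *
        ((3 * k).choose k : ℤ) * (-64) ^ (n - 1 - k) := by
  change _ ∣ S n
  obtain ⟨m, rfl⟩ : ∃ m, n = m + 1 := ⟨n - 1, by omega⟩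
  have hm : 1 ≤ m := by omega
  have h2 : (4 : ℤ) ∣ 3 * U m := (four_dvd_U m hm).mul_left 3
  have hcop : IsCoprime (4 : ℤ) ((2 * m + 3 : ℕ) : ℤ) := by
    have h2 : IsCoprime (2 : ℤ) ((2 * m + 3 : ℕ) : ℤ) := by
      refine ⟨-(m + 1), 1, ?_⟩
      push_cast
      ring
    have : (4 : ℤ) = 2 * 2 := by norm_num
    rw [this]
    exact h2.mul_left h2
  obtain ⟨W, hW⟩ := hcop.mul_dvd h2 (dvd_three_U m)
  have h3 := S_eq m
  refine ⟨W, ?_⟩
  rw [← Nat.centralBinom_eq_two_mul_choose]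
  have h4 : 4 * S (m + 1) = 4 * ((2 * ((m + 1 : ℕ) : ℤ) + 1) * ((m + 1 : ℕ) : ℤ) ^ 2 *
      (Nat.centralBinom (m + 1) : ℤ) ^ 2 * W) := by
    rw [h3]
    calc 3 * ((m : ℤ) + 1) ^ 2 * (Nat.centralBinom (m + 1) : ℤ) ^ 2 * U m
        = (m + 1) ^ 2 * (Nat.centralBinom (m + 1) : ℤ) ^ 2 * (3 * U m) := by ring
      _ = (m + 1) ^ 2 * (Nat.centralBinom (m + 1) : ℤ) ^ 2 * (4 * ((2 * m + 3 : ℕ) : ℤ) * W) := by rw [hW]
      _ = _ := by push_cast; ring
  exact mul_left_cancel₀ (by norm_num) h4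

end Pool.Agent.Results.MP_147bb8_nt.Divisibility
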